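import Mathlib
import Pool.Agent.H855.DRB.Main

/-!
# De Rham-Betti classes on all the products `X^r × Y^s`, where `X` is of CM type: one small exceptional space for every
variety `Y`

Question 1 for an (André) motive `M` says that all de Rham-Betti classes on the tensor spaces of `M`
are motivated, and that the de Rham-Betti group of `M` is reductive. For the motive `M = h(X) ⊕
h(Y)` of two smooth projective varieties over `ℚ̄` the first condition is about the classes on all
the varieties `X^r × Y^s` (the dual spaces are Tate twists of spaces of this form). We consider it
in the case where `X` is of CM type, and `Y` is arbitrary.

**Periods.** The cohomology `H(Y)` of a smooth projective variety `Y` over the algebraic numbers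
`ℚ̄` consists of the Betti cohomology `H_B(Y, ℚ)` and the algebraic de Rham cohomology `H_dR(Y/ℚ̄)`,
with the comparison isomorphism (`DRBSpace`). A de Rham-Betti class of codimension `j` is a class
`x` in `H_B^(2j)(Y, ℚ)` such that `(2πi)^j x` is in `H_dR(Y/ℚ̄)`. More generally we call a class `x`
in `H_B^m(Y, ℚ)` a class of degree `m` if `(2πi)^(m/2) x` is in `H_dR(Y/ℚ̄)` (`classes`; for odd `m`
one expects that there are no such classes besides `0`). A vector `w` of `H_B(Y, ℚ̄)` has the
periods `c` if for each automorphism `σ` of the field `ℂ` the conjugate `σ w` becomes a de Rham
class when multiplied by the complex number `c σ` and by `(2πi)^(m/2)` in degree `m` (`HasPeriods`).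
Only the class of `c σ` in `ℂˣ` modulo algebraic numbers matters. This is a vector space over `ℚ`,
and it is embedded in the real numbers by a homomorphism `lam : ℂˣ → ℝ` whose kernel are the
algebraic numbers (`IsLog`); such homomorphisms exist, and everything below is true for all of them.

A function `x` on the complex embeddings of a field with values in `ℂˣ` is odd if `x (conj φ) * x φ`
is algebraic.

**The varieties `X`.** Let `x j` be odd functions on the complex embeddings of CM fields `L j`, `j`
in a finite set, with values in `ℂˣ`. Let `X` be a smooth projective variety over `ℚ̄` of CM type;
we use this in the form that `H_B(X, ℂ)` is generated by vectors with periods (`IsOfCMType`). We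
suppose that for all vectors with periods `c` a power of `c σ` is, up to an algebraic number, the
product of the `x (σ ψ) ^ m (j, ψ)` over the embeddings `ψ` of the fields `L j`, for all `σ`
(`IsGeneratedBy`). For instance, if `x j φ` is `(2πi)^(-1/2)` times the period of the differential
form on which `L j` acts by the embedding `φ`, on an abelian variety `A j` with complex
multiplication by `L j` (it is odd by the relation of Riemann and Legendre), then `X` can be **any**
abelian variety isogenous to a product of powers of the `A j`, or a variety whose cohomology is
built from the cohomology of such abelian varieties, like the Fermat hypersurfaces. Nothing is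
assumed on the transcendence of the periods `x j φ`.

**The space of the periods.** Let `Y` be **any** smooth projective variety over `ℚ̄`, and let `V` be
the space over `ℚ` generated by the functions `σ ↦ lam (c σ)` on the automorphisms of `ℂ`, for
**all** vectors with periods `c` in the cohomology of **all** powers `Y^s` (`periodSpace`). For a CM
field `E` let `V(E)` be the space of the odd real functions `f` on the complex embeddings of `E`
such that for all embeddings `φ` the function `σ ↦ f (σ φ)` is in `V` (`excSpace`): **the
exceptional space of `E`**; it depends only on the periods of `Y` and on `E`.

**The theorem.** Let `Y` be **any** smooth projective variety over `ℚ̄`, with Betti numbers `b_i`,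
and `d = dim V`.

1. The exceptional spaces are small (`PeriodsAreSmall`): **`d ≤ ∑ b_i²`**; `dim V(E) ≤ d` for all CM
   fields `E`; and there are at most `d` pairwise unrelated CM fields `E i` with `V(E i) ≠ 0`, more
   precisely `∑ m i ≤ d`, where `m i` is a lower bound for the dimensions of the nonzero stable
   spaces of odd rational functions on the embeddings of `E i` (`IsLowerBound`). (Two fields are
   unrelated if there are no nonzero equivariant maps between their odd functions.)
2. Let `x j` be odd functions on the embeddings of CM fields `L j` such that **no nonzero vector of
   the spaces `V(L j)` is a combination of the functions `lam ∘ x j`** (`ForAllOutside`), and let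
   `X` be **any** variety of CM type whose periods are generated by the `x j`. Then for **all `r`
   and `s`**
   * the de Rham-Betti classes on `X^r × Y^s` are exactly the sums of products of de Rham-Betti
     classes on `X^r` and `Y^s` (`ClassesOnAllPowers`);
   * **all de Rham-Betti classes on all the products `X^r × Y^s` are motivated if and only if all de
     Rham-Betti classes on all the powers `X^r` and on all the powers `Y^s` are: the functor to de
     Rham-Betti objects is full on the category generated by `h(X)` and `h(Y)` if and only if it is
     full on the categories generated by `h(X)` and by `h(Y)`**. The same is true for algebraic
     classes instead of motivated classes (question 2), and for all families of classes with the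
     formal properties listed in `Motivated` (`MotivatedOnAllPowers`).

In particular, for **all** CM fields `L` in a set of pairwise unrelated CM fields (for instance,
imaginary quadratic fields, or CM fields of degree `2g` with irreducible odd functions and different
normal closures), with at most `∑ b_i²` exceptions, this is true for **all** `X` with complex
multiplication by `L`, since then `V(L) = 0`. This is unconditional: neither the dimension of `V`
nor the transcendence of the periods of `X` and `Y` is known.

A vector `v` on the embeddings of a field `E` is a combination of the `lam ∘ x j` (`IsRealComb`) if
it is the sum of the images of the `lam ∘ x j` under equivariant maps: `v φ = ∑ t φ (j, ψ) * lam (x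
j ψ)` with rational numbers `t φ (j, ψ)` which are invariant under the automorphisms of `ℂ`, odd in
`ψ`, and zero if the fields `E` and `L j` are unrelated.

**Consequences.** A sum of semisimple objects is semisimple, so the de Rham-Betti group of `h(X) ⊕
h(Y)` is reductive if this is so for `h(X)` and `h(Y)`. Hence for `X` outside of the exceptional
spaces **question 1 for `h(X) ⊕ h(Y)` has a positive answer if and only if this is so for `h(X)` and
`h(Y)`** (this remark is not part of the Lean statement). For example, `X` can be an abelian variety
with complex multiplication for which question 1 is known (CM elliptic curves: Chudnovsky; see also
the results on abelian varieties with complex multiplication `AbelianCMTensors` in the library and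
`PrimitiveCores` on this page), and `Y` can be a hyper-Kähler variety with `h^(1,1) - ρ ≤ 2`, or an
elliptic curve without complex multiplication (all known cases for which fullness on all powers is
known), or a variety for which nothing is known.

(Some condition is necessary: for `X = Y` of CM type there are classes on `X × Y` which are not sums
of products.)

**Relation.** The results `AnyVarietyTimesEllipticProducts` and `ProductsWithEllipticCurves` of the
library are about any variety `Y` and products `X` of elliptic curves (with or without complex
multiplication), with at most `∑ ⌊b_i / 2⌋` exceptional isogeny classes, and `AnyVarietyTimesK3` is
about K3 surfaces `X` with large Mumford-Tate group; their methods (derivations, theorem of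
Wüstholz) do not apply to complex multiplication in dimension `> 1`, where the independence of the
periods is not known. Here `X` has complex multiplication by any CM fields. The Hodge-theoretic
analogue is `AllPowersWithCM` on MP_0da4e0_ag; there the types are integers, and the space is
bounded by the center of the Hodge group.

The proof. Let `C` be the comparison matrix of `Y`, with the factors `(2πi)^(m/2)`. A complex number
is algebraic if it is fixed by all automorphisms `σ` of `ℂ` over `ℚ̄` (`isAlgebraic_of_fixed`). So a
vector `w ≠ 0` of the cohomology of `Y^s` with periods `c` is an eigenvector of the operators given
by the matrices `τ⁻¹ (C⁻¹ σ(C))`, for all automorphisms `τ` of `ℂ` and all `σ` over `ℚ̄`, with the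
eigenvalue `τ⁻¹ (c τ / σ (c τ))` (`eigen`). These eigenvalues give a character of the monoid
generated by the pairs `(τ, σ)`, which is a polynomial in the entries of the matrices (`poly_ev`),
and these matrices have `∑ b_i²` entries. If the functions `lam ∘ c_i`, `i = 1, ..., N`, are
independent over `ℚ`, all monomials in the characters are different, so they are linearly
independent; hence the `N` polynomials are algebraically independent, and `N ≤ ∑ b_i²`
(`card_periods`).

Take a basis `e k` of `H(X^r)` of vectors with periods `d k`, and write a de Rham-Betti class on
`X^r × Y^s` as `∑ e k ⊗ y k`. Since it is rational its conjugates are the same class `∑ σ (e k) ⊗ σ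
(y k)`, so that the `y k` have the periods `(d k)⁻¹` (`kunneth`). Some power of `d k` is a product
of values `x j (σ ψ)`; since the functions `x j` are odd, `lam ∘ (d k)⁻¹` is the value of an odd
relation with rational coefficients (`exists_relation`). If it is not zero there is a vector `v ≠ 0`
on the embeddings of one of the fields `L j` whose translates are combinations of the translates of
`lam ∘ (d k)⁻¹` (`exists_vector`), so that `v` is in `V(L j)`, and `v` is a combination of the `lam
∘ x j` (`isRealComb_of`), a contradiction. So `d k` is algebraic or `y k = 0` for all `k`, and the
class is a sum of products of classes (`classes_prod`). The powers `X^r` are of CM type with periods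
generated by the `x j`: the periods of a vector are those of an element of a basis
(`period_of_basis`, `span_pow`). The sizes: `f ↦ (σ ↦ f (σ φ))` is an injective map from `V(E)` to
`V` (`finrank_excSpace`), and for pairwise unrelated fields the images are independent (`sum_le`).
-/

set_option autoImplicit false

namespace Pool.Agent.Results.MP_470b79_ag.AllPowersWithCM

open NumberField Pool.Agent.H855.DRB

/-- **For every smooth projective variety `Y` over the algebraic numbers and all varieties `X` of CM type outside of the exceptional spaces
of `Y`, whose dimensions are at most `∑ b_i²`: the de Rham-Betti classes on all the products `X^r × Y^s` are sums of products, and all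
of them are motivated if and only if this is true for the powers of `X` and for the powers of `Y`.** -/
theorem result : (∃ lam : ℂˣ → ℝ, IsLog lam) ∧ ∀ lam : ℂˣ → ℝ, IsLog lam →
    ∀ (B : Type) [Fintype B] (Y : DRBSpace B), PeriodsAreSmall lam Y ∧
      ForAllOutside lam (Y.periodSpace lam)
        (fun _ _ X => ClassesOnAllPowers X Y ∧ MotivatedOnAllPowers X Y) :=
  ⟨exists_isLog, fun _ hl _ _ Y => ⟨periodsAreSmall hl Y, forAllOutside hl Y⟩⟩

end Pool.Agent.Results.MP_470b79_ag.AllPowersWithCM
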