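import Pool.Agent.H367.OS.OTan

/-!
# The de Rham-Betti conjecture and single pieces of one sequence of cubics

A relation `r` of size `m` is one of the equations `x_i x_j = x_l`, `x_i + x_j = x_l`, `x_i = 1` with
`i, j, l < m`; the relations are numbered, the number of `r` is `ν(r)` (`relNum`). Let `G_m` be the
following polynomial with integral coefficients (`univG ℤ m`). There are variables `x_i` and `z_ij` for
`i, j < m`, a variable `c_r` for every relation `r`, and variables `y_{r,l}` for all relations `r` and
`l < (m + 1) 2 ^ ν(r)`. The equations (`eqnG`) are

  `z_ij - x_i x_j`,  `c_r ^ 2 - c_r`,  `c_r ρ_r`,  `(1 - c_r) y_{r,l}`,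

where `ρ_r` is the linear polynomial `z_ij - x_l`, `x_i + x_j - x_l` or `x_i - 1` of the relation.
`G_m` is the sum of the equations multiplied by further variables `t_e`, one for each equation. It has
degree three. Let `C_m` be the affine cubic hypersurface `G_m = 1` (`cubG R m` over the ring `R`); it is
smooth over the integers.

Let `K` be a subfield of the field of algebraic numbers, and let `M` be the category of André motives
over `K`, a semisimple abelian category with Tate twists `N ↦ N(a)`. For a separated scheme `X` of
finite type over `ℚ` let `D.G w j X = Gr^W_w H^j_c(X_K)` be the part of weight `w` of the cohomology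
with compact supports, a motive over `K`; for smooth projective `Y` it is `h^j(Y_K)` if `j = w`, and
zero otherwise.

For a motive `N` let `dRB N` be the equality `Ω^dRB_N = Ω^And_N` of question Q1. If it is true for
`N`, it is true for all motives in the Tannakian category generated by `N`, in particular for all
direct factors (see the problem file; hypothesis `inherit`).

Every motive `N` over `K` is in the Tannakian category generated by one motive `h^i(Y_K)(t)` of weight
one, for a smooth projective scheme `Y` over `ℚ` (hypothesis `exhausts`): `N` is a direct factor of a
sum of motives `h^{i_j}(Y_j)(a_j)`, where `Y_j` is a part of `(Y_j')_K` for a scheme `Y_j'` over `ℚ`.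
Take an elliptic curve `C`, `Y = ∏ Y_j' × C ^ i` for a large odd number `i`, and `t = (i - 1) / 2`.
Then `h^i(Y)(t)` has the direct factors `h^1(C)` and `h^{i_j}(Y_j') ⊗ h^1(C) ^ {⊗ (i - i_j)}(t)`.

**Theorem.** Let `E_m` be the number of the equations, and for `N ∈ ℕ` let `e = (m + 1) N + E_m - 1`
(`esh m N`).

(1) Question Q1 for `K` has a positive answer for all André motives over `K` if and only if for
infinitely many `m` the equality `Ω^dRB = Ω^And` is true for all Tate twists of the single motives
`Gr^W_{j-1} H^j_c((C_m)_K)`, for all `j`.

(2) For every motive `N` over `K` and all large `m` there are `j` and `t` such that the equality for the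
single motive `Gr^W_{j-1} H^j_c((C_m)_K)(t)` implies the equality for `N`.

(3) For every degree `i` the equality is true for all motives `h^i(Y_K)` if and only if for infinitely
many `m` it is true for the single motives `Gr^W_{i+2e} H^{i+2e+1}_c((C_m)_K)(e)`, for all `N`.

(4) The hypersurfaces `C_m` decide the statement for the pieces of the cohomology (`DecidesPieces`).
For every affine scheme `Spec B` of finite type over `ℚ` and all large `m` there is an `N` such that
for `0 ≤ w ≤ 2 m + 1` and all `j` the statement for `Gr^W_w H^j_c(Spec B)` is equivalent to the one
for `Gr^W_{w+2e} H^{j+2e+1}_c(C_m)`. For every smooth projective `Y` over `ℚ`, every `d` and all large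
`m` there is an `e'` such that for all `i ≤ d` the statement for `h^i(Y)` is equivalent to the one for
`Gr^W_{i+2e'} H^{i+2e'+1}_c(C_m)`. The statements for the pieces of one `C_m` imply those for all
pieces of a given separated scheme `X` of finite type. (In all these statements there are the same
Tate twists on both sides, up to the shift by `e`.)

(5) For `i = 0` the equality is known (Artin motives), so it is true for the motives
`Gr^W_{2e} H^{2e+1}_c((C_m)_K)(e)`, for infinitely many `m` and all `N`.

(6) `G_m` has integral coefficients and degree at most three, and `C_m` is smooth over all rings.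

The hypotheses on the motives are standard (`IsMot`): exact sequences, affine bundles, disjoint unions,
the cohomology of affine spaces, the weights of `H^j_c(X)` are between `0` and `2 dim X`, monomorphisms
split, `Gr^W_w H^j_c(X)` is a direct factor of `h^w(Y)` for some smooth projective `Y` (it is a
subquotient, by the weight spectral sequence), and every smooth projective scheme has an affine bundle
whose total space is affine (Jouanolou).

Idea of the proof. The projection of `C_m` to the affine space with the coordinates `x, z, c, y` is an
affine bundle over the complement of the zero set `W_m` of the equations. The scheme `W_m` is the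
disjoint union, over all sets `s` of relations (`c_r = 1` for `r ∈ s` and `c_r = 0` for the others), of
the products `X_s × 𝔸 ^ ((m + 1) N(s))`, where `X_s` is the affine scheme defined by the relations in
`s` and `N(s) = ∑_{r ∈ s} 2 ^ ν(r)`. The numbers `N(s)` are different, and the weights of the
cohomology of `X_s` are between `0` and `2 m`. So the part of weight `w + 2 (m + 1) N(s)`,
`0 ≤ w ≤ 2 m + 1`, of the cohomology of `W_m` is the twist of the part of weight `w` of the cohomology of
`X_s`, and it is different from the weight of the cohomology of the affine space. Every affine scheme of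
finite type over a prime field is an `X_s`, for all large `m`. The pieces of the cohomology of an
arbitrary scheme are direct factors of those of a disjoint union of affine schemes.

The universal system of relations is the one of helper854 (`Pool.Agent.H854.SQ`).
-/

set_option autoImplicit false

open CategoryTheory CategoryTheory.Limits AlgebraicGeometry Pool.Agent.Y116.UV Pool.Agent.Z125.UN
  Pool.Agent.Q193.LT Pool.Agent.H854.SQ Pool.Agent.H367.OS

universe v u



namespace Pool.Agent.Results.MP_470b79_ag.PiecesOfOneSequence

/-- **The de Rham-Betti conjecture and single pieces of one sequence of cubic hypersurfaces over the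
integers.** See the explanations above. -/
theorem result {M : Type u} [Category.{v} M] [Abelian M] {D : Pieces ℚ M} (h : IsMot D)
    {dRB : M → Prop} (inherit : ∀ {N N' : M} (i : N ⟶ N') (r : N' ⟶ N), i ≫ r = 𝟙 N →
      dRB N' → dRB N)
    (exhausts : Exhausts D dRB) (artin : ∀ Y : Sch ℚ, SmoothProj Y → dRB (D.G 0 0 Y)) :
    ((∀ N : M, dRB N) ↔ ∃ᶠ m in Filter.atTop, ∀ j t : ℤ,
      dRB ((D.tw t).obj (D.G (j - 1) j (cubG ℚ m)))) ∧
    (∀ N : M, ∃ m₀ : ℕ, ∀ m, m₀ ≤ m → ∃ j t : ℤ,
      dRB ((D.tw t).obj (D.G (j - 1) j (cubG ℚ m))) → dRB N) ∧
    (∀ i : ℕ, (∀ Y : Sch ℚ, SmoothProj Y → dRB (D.G i i Y)) ↔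
      ∃ᶠ m in Filter.atTop, ∀ N : ℕ, dRB ((D.tw (esh m N)).obj
        (D.G (i + 2 * esh m N) (i + 2 * esh m N + 1) (cubG ℚ m)))) ∧
    DecidesPieces D dRB ∧
    (∃ᶠ m in Filter.atTop, ∀ N : ℕ, dRB ((D.tw (esh m N)).obj
      (D.G (2 * esh m N) (2 * esh m N + 1) (cubG ℚ m)))) ∧
    ∀ m : ℕ, (univG ℤ m).totalDegree ≤ 3 ∧
      ∀ (R : Type) [CommRing R], MvPolynomial.map (Int.castRingHom R) (univG ℤ m) = univG R m ∧
        Smooth (cubG R m).hom := by
  have hf : FactorClosed dRB := by
    rintro N N' ⟨i, r, e⟩ hN
    exact inherit i r e hN
  have hd := decides_pieces isPrimeField_rat h hf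
  have h0 := hd.degree h.pieces hf.isoInv
  refine ⟨all_motives hd exhausts, one_motive hd exhausts, h0, hd, ?_, cubG_facts⟩
  have h1 := (h0 0).mp (by simpa using artin)
  simpa using h1

end Pool.Agent.Results.MP_470b79_ag.PiecesOfOneSequence
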