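import Mathlib
import Pool.Agent.H298.Core.PeriodMain
import Pool.Agent.H298.Core.Main
import Pool.Agent.H298.Core.DoubleFactMain

/-!
# The de Rham–Betti conjecture for the motives of abelian varieties with complex multiplication by CM
fields with irreducible odd part or primitive core

Let `A` be an abelian variety over the field `ℚ̄` of algebraic numbers, of dimension `g`, and
`M = h^1(A)`. A de Rham–Betti class in `M^{⊗ 2m}(m)` is a multilinear form `φ` with rational values
in `2 m` variables in `H_1(A, ℚ)` such that `(2 π i) ^ m φ` is a combination with algebraic
coefficients of the products of the elements of `H^1_dR(A / ℚ̄)`. As `M^∨ = M(1)` by the polarization,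
these are the de Rham–Betti classes on all the tensor spaces `M^{⊗ n} ⊗ (M^∨)^{⊗ n}` of `M` (the
spaces `M^{⊗ n} ⊗ (M^∨)^{⊗ n'}` with `n ≠ n'` contain no de Rham–Betti class except zero if `M` is of
CM type, by the transcendence of `π`). **Nothing is assumed about periods**: `AbVar` is the
description of an abelian variety over `ℚ̄` by theta functions (see `Y102/AVDefs.lean` in the library,
where it is explained why every abelian variety has it), the theorems of Schneider-Lang and of Bost
are proved in the library, and the theorem of Deligne on Hodge classes is not used in Lean.

**The question.** `Ω^dRB = Ω^And` holds for `M` if and only if the de Rham–Betti realization is full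
on `⟨M⟩`, that is, all de Rham–Betti classes on the tensor spaces are motivated, and the group
`G_dRB(M)` is reductive. If `A` is simple with complex multiplication then `G_dRB(M)` is a subgroup
of the torus of `E`, as its commutant is `E` (Bost), so it is reductive. By Deligne and André Hodge
classes on abelian varieties are motivated. So **`Ω^dRB_M = Ω^And_M` (Q1) holds for `M = h^1(A)`, and
therefore for all motives in `⟨h^1(A)⟩`, if every de Rham–Betti class is a Hodge class; and
`Ω^dRB_M = Ω^And_M = Ω^mot_M` (Q2) if every de Rham–Betti class is a combination of products of
divisor classes.** These are the conclusions below.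

**Cores.** Let `E` be a CM field of degree `2 g`, `X` the set of its complex embeddings. The
automorphisms of `ℂ` which map all elements of `X` to themselves or to their complex conjugates are
called sign changes. The first core of `φ : X` consists of the `ψ : X` which are moved by the same
sign changes as `φ`. If one uses all automorphisms which map the elements of the first core to
themselves or to their conjugates, one obtains the second core, inside of the first one, and so on
(`coreOf`). The cores of the same index have the same number `2 c` of elements, and `c` divides `g`
(`c = g` is possible). A core is primitive (`PrimitiveCore`) if `c` is a prime number, or if `c = [E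
: F]` for a subfield `F`, not totally real, such that the automorphisms of `ℂ` act doubly
transitively on the extensions to `E` of an embedding of `F`. If `c = 1` then the odd rational
functions on `X` are an irreducible representation of the automorphisms of `ℂ` (`OddIrreducible`;
the torus of `E` is simple). Part four of the theorem (`AllFacts`) contains criteria. Let `2 ^ v`
be the degree of the Galois closure of `E` over the Galois closure of its maximal real subfield `E₀`
(typically `v = g`). Then there is a core with `c ≤ g / v` pairs. **If `v > g / 3` then the odd part
of `E` is irreducible or there is a core with two pairs; if the Galois group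
of `E₀` is doubly transitive, and `g` is odd, or `g - 1` is a prime number, or at least `g` is none of
the numbers `10, 16, 26, 28, 36, …` (`TwoGraphDegree`), or if it is triply transitive and `g ≥ 3`
(for example the symmetric group, or the alternating group if `g ≥ 5`), and `E` contains no imaginary
quadratic field, then the odd part of `E` is irreducible.** If `v > g / 4`, or
if `v > 1` and `g` is the product of two prime numbers, or generally if `E` has few divisors
(`FewDivisors`, a condition on `g`, `v` and the discriminants) then there is a core with `c = 1` or
`c` prime.

**Theorem, part one.** Let `A` be simple with complex multiplication by `E` (`HasCM`, `Defines`: `E`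
is generated by `y` with `ȳ = - y`, which acts on `A` as the endomorphism `P`). Suppose that
(`CoreCondition`) the odd part of `E` is irreducible, or `E` has a primitive core with `c` pairs of
embeddings and

* `c = 2`, or all subfields `F` with `[E : F] = c` are totally real;
* or `2 m < c`, or `m < c` and `c` is odd.

Then all de Rham-Betti classes in `M^{⊗ 2m}(m)` are linear combinations of products of classes of
divisors. In the first two cases (irreducible odd part; `c = 2` or all subfields of index `c` totally
real) this is so for all `m`, and **Q1 and Q2 hold for `h^1(A)` and for all motives in `⟨h^1(A)⟩`**.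

**Part two.** Let `A` be as before, `E` with a primitive core with `c` pairs; there are no other
conditions.

* Let `Z` be an endomorphism with `Z̄ = - Z` which is orthogonal for the trace form to all subfields
  `F` of `E` with `[E : F] = c` which are not totally real; that is, the traces of `Z` to these
  subfields are zero. Then `Z` annihilates all de Rham-Betti classes on all powers of `A`. (So the
  Lie algebra of the de Rham-Betti group of `A` is large: it is the one of the unitary torus of `E`,
  or contains the Lie algebra of the intersection of the kernels of the norms to the `F`.)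
* If `A` is of Weil type for all these `F`, that is, if the trace on the tangent space of all `D ∈
  F` with `D̄ = - D` is zero, then every de Rham-Betti class in `M^{⊗ 2m}(m)` is a Hodge class, for
  all `m`. So **Q1 holds for `h^1(A)` and for all motives in `⟨h^1(A)⟩` also in this case, where there
  are exceptional Hodge classes** (Weil classes for `F`), not generated by classes of divisors.

So for a simple `A` with complex multiplication by a field with a primitive core Q1 is proved for
`h^1(A)` if all subfields `F` with `[E : F] = c` are totally real or balanced for `A`.

**Part three.** Let `A` have `g` commuting linearly independent endomorphisms which are symmetric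
for the polarization. Such `A` are, up to isogeny, the products of simple abelian varieties which
have real multiplication by a field of degree equal to the dimension, or multiplication by a totally
indefinite quaternion algebra over a totally real field of degree equal to half of the dimension, or
complex multiplication. Let the simple factors with complex multiplication have the fields `E i`,
such that for every `i` some automorphism of `ℂ` conjugates all embeddings of `E i` and fixes all
embeddings of the `E j`, `j ≠ i`. Suppose that each `E i` has irreducible odd part or a primitive
core with `c i` pairs and `c i = 2`, or all subfields `F` with `[E i : F] = c i` are totally real,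
or `2 m < c i` (or `m < c i` if there is only one field, `c i` is odd and all simple factors have
complex multiplication). Then all de Rham-Betti classes of degree `2 m` on all powers of `A` are
linear combinations of products of classes of divisors.

The divisor classes here are the bilinear forms `(u, v) ↦ ω (Q u, v)` where `ω` is the polarization
and `Q` is an endomorphism of `A`: these are the components of the classes of divisors on the powers
of `A`. The endomorphisms are those of the de Rham-Betti object `H_1(A)`, and by a theorem of Bost
(proved in the library, `Pool.Agent.Y102.AbVar.hodge_end`) these are the endomorphisms of `A`.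

**What was known.** In the library there is `CMPrimeOrTwoTransitive` (whose machine is used): the
case of simple tori, and the fields for which a prime number `l > g / 2` divides the order of the
Galois group (for instance `g` prime) or which contain an imaginary quadratic field `F` with a
doubly transitive group of the places; and, for the period conjecture of divisor classes, the fields
with flipped classes of two pairs (`MP_bf54cf_ag/ClassesOfTwoPairs`, `MP_77d3f5_ag/GoodClassCycles`:
`2 ^ v` with `v > g / 3`, a prime cycle). New here are the primitive cores with their exact
obstruction, part two (the de Rham-Betti group is large in all cases, and the Weil type case of Q1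
with exceptional classes), `v > g / 4`, products of two primes, triply transitive real subfields, and
the products in part three.

## Proof

Let `𝔥` be the Lie algebra of the endomorphisms of `H_1(A, ℚ)` that annihilate all de Rham-Betti
classes. By the theorem of Schneider and Lang it acts semisimply and its commutant is the algebra of
endomorphisms of `A`; it consists of elements `f(P)` with odd polynomials `f`. If a class has a
component of weights `s_1, …, s_{2m}` then `∑ f(s_k) = 0` for all `f(P) ∈ 𝔥`. Some `f(P) ∈ 𝔥` has
different conjugates at all embeddings, and some `ℚ`-linear function `ℂ → ℚ` has different values at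
them; so we obtain a function `w` on `X`, odd and injective with rational values, such that `n(s)`,
the multiplicity of `s` minus the one of `- s`, is orthogonal to all conjugates of `w`. By sign
changes one can cut `n` down to a relation which is supported in one core, with the same values
there up to a power of two (`localize_mul`). If `c` is prime, a Sylow subgroup of the stabilizer of
the core contains an element with two orbits of length `c` on the core, exchanged by the complex
conjugation, and by the irreducibility of the cyclotomic polynomial `n` is constant on these orbits
(`prime_core_odd_struct`); in the doubly transitive case one averages over a stabilizer. The orbit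
consists of the extensions of an embedding of a subfield `F` with `[E : F] = c`, which is not
totally real, and `n` comes from `F`. So `n = 0` or there are at least `c` weights; if `c` is odd,
at least `2 c` since `2 m` is even (`card_ge_of_odd`).
-/

set_option autoImplicit false

open Module Polynomial Pool.Agent.Y102 Pool.Agent.W516.DR Pool.Agent.H204R3.GP
open NumberField Pool.Agent.H298.Core

noncomputable section

namespace Pool.Agent.Results.MP_470b79_ag.PrimitiveCores

variable {g : ℕ} (A : AbVar g)

/-- The multilinear forms in `2m` variables in the rational homology: the components of the elements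
of `H^{2m}(A^r, ℚ)`. -/
abbrev Form (m : ℕ) : Type := MultilinearMap ℚ (fun _ : Fin m × Fin 2 => A.H1) ℚ

/-- `φ` is a de Rham-Betti class. -/
def IsDRB {m : ℕ} (φ : Form A m) : Prop :=
  IsDeRhamBettiForm QBar A.dR (2 * Real.pi * Complex.I) m φ

/-- `φ` is a Hodge class. -/
def IsHodge {m : ℕ} (φ : Form A m) : Prop :=
  IsHodgeTensor (A.per : A.H1 →+ (Fin g → ℂ)) φ

/-- The endomorphisms of `A`, up to isogeny: the endomorphisms of `H_1(A, ℚ)` which respect the
de Rham cohomology over the field of algebraic numbers. -/
def IsEndomorphism (P : Module.End ℚ A.H1) : Prop := IsDeRhamBettiEnd QBar A.dR P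

/-- The Riemann form of the polarization, on the rational homology. -/
def polarization : A.H1 →ₗ[ℚ] A.H1 →ₗ[ℚ] ℚ := A.om

/-- `X` is skew-symmetric for the polarization. -/
def IsSkewSymmetric (X : Module.End ℚ A.H1) : Prop :=
  ∀ u v, polarization A (X u) v + polarization A u (X v) = 0

/-- `M` is the action of `D` on the tangent space. -/
def IsTangentAction (D : Module.End ℚ A.H1) (M : (Fin g → ℂ) →ₗ[ℂ] (Fin g → ℂ)) : Prop :=
  ∀ w, M (A.per w) = A.per (D w)

/-- The form is a product of divisor classes: a product of forms `(u, v) ↦ ω (Q u, v)`, where `ω` is
the polarization and `Q` is an endomorphism of `A`, in some order of the `2m` variables. -/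
def IsProductOfDivisorClasses {m : ℕ} (ψ : Form A m) : Prop :=
  ∃ (σ : Equiv.Perm (Fin m × Fin 2)) (Q : Fin m → Module.End ℚ A.H1),
    (∀ l, IsEndomorphism A (Q l)) ∧
    ∀ v, ψ v = ∏ l, polarization A (Q l (v (σ (l, 0)))) (v (σ (l, 1)))

/-- `A` is simple with complex multiplication by the field `ℚ(P)` of degree `2 g`: the algebra of
endomorphisms is generated by `P`, and `P` is skew-symmetric for the polarization (the Rosati
involution is the complex conjugation). -/
structure HasCM (P : Module.End ℚ A.H1) : Prop where
  endomorphism : IsEndomorphism A P
  skew : IsSkewSymmetric A P
  generates : ∀ Q, IsEndomorphism A Q → Q ∈ Algebra.adjoin ℚ {P}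
  simple : ∀ Q, IsEndomorphism A Q → Q ≠ 0 → Function.Injective Q
  degree : (minpoly ℚ P).natDegree = 2 * g

/-- The endomorphism `Z` annihilates the form `φ` (as a derivation). -/
def Annihilates {m : ℕ} (Z : Module.End ℚ A.H1) (φ : Form A m) : Prop :=
  ∀ v, ∑ k, φ (Function.update v k (Z (v k))) = 0

/-- `Z` is orthogonal for the trace form to the subfields `F` of `E` with `[E : F] = c` which are not
totally real; here the generator `y` of `E` acts as `P`. -/
def IsOrthogonalToSubfields {E : Type} [Field E] [NumberField E] (y : E)
    (P : Module.End ℚ A.H1) (c : ℕ) (Z : Module.End ℚ A.H1) : Prop :=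
  ∀ F : IntermediateField ℚ E, finrank F E = c → ¬ IsTotallyReal F → ∀ q : ℚ[X],
    aeval y q ∈ F → LinearMap.trace ℚ A.H1 (aeval P q * Z) = 0

/-- `A` is of Weil type for the subfields `F` of `E` with `[E : F] = c` which are not totally real:
the trace on the tangent space of the elements `q (y)` of `F`, `q` an odd polynomial, is zero. -/
def IsOfWeilType {E : Type} [Field E] [NumberField E] (y : E) (P : Module.End ℚ A.H1)
    (c : ℕ) : Prop :=
  ∀ F : IntermediateField ℚ E, finrank F E = c → ¬ IsTotallyReal F → ∀ q : ℚ[X],
    aeval y q ∈ F → q.comp (-X) = -q → ∀ M, IsTangentAction A (aeval P q) M →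
      LinearMap.trace ℂ (Fin g → ℂ) M = 0

/-- There are `g` commuting linearly independent symmetric endomorphisms. -/
def MaximalRM : Prop := ∃ P : Fin g → Module.End ℚ A.H1, (∀ i, IsEndomorphism A (P i)) ∧
  (∀ i j, P i * P j = P j * P i) ∧
  (∀ i u v, polarization A (P i u) v = polarization A u (P i v)) ∧ LinearIndependent ℚ P

/-- `R` is an endomorphism which is skew-symmetric and central in the algebra of endomorphisms. -/
def IsCentralSkew (R : Module.End ℚ A.H1) : Prop :=
  IsEndomorphism A R ∧ IsSkewSymmetric A R ∧ ∀ Q, IsEndomorphism A Q → R * Q = Q * R

/-- The central skew-symmetric endomorphisms are polynomials in one of them, `Y`, and the minimal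
polynomial of `Y` is divisible by the `p i` and divides `T ∏ p i`. If the `p i` define the CM fields
`E i` these are the fields of the factors with complex multiplication. -/
structure IsCMPart {r : ℕ} (Y : Module.End ℚ A.H1) (p : Fin r → ℚ[X]) : Prop where
  central : IsCentralSkew A Y
  generates : ∀ R, IsCentralSkew A R → R ∈ Algebra.adjoin ℚ {Y}
  factor : ∀ i, p i ∣ minpoly ℚ Y
  minpoly_dvd : minpoly ℚ Y ∣ X * ∏ i, p i

/-- For every `i` some automorphism of the complex numbers changes the sign of all roots of `p i` and
fixes all roots of the `p j`, `j ≠ i`. -/
def Independent {r : ℕ} (p : Fin r → ℚ[X]) : Prop :=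
  ∀ i, ∃ σ : ℂ ≃+* ℂ, (∀ z, aeval z (p i) = 0 → σ z = -z) ∧
    ∀ j, j ≠ i → ∀ z, aeval z (p j) = 0 → σ z = z

/-- **The de Rham-Betti classes on all powers of abelian varieties with complex multiplication by
fields with irreducible odd part or primitive core.** -/
theorem result :
    -- 1
    (∀ {g : ℕ} (A : AbVar g) {P : Module.End ℚ A.H1} (E : Type) [Field E] [NumberField E]
      [IsCMField E] (y : E), HasCM A P → Defines (minpoly ℚ P) E y →
      ∀ {m : ℕ}, CoreCondition E m True → ∀ φ : Form A m, IsDRB A φ →
        φ ∈ Submodule.span ℚ {ψ | IsProductOfDivisorClasses A ψ} ∧ IsHodge A φ) ∧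
    -- 2
    (∀ {g : ℕ} (A : AbVar g) {P : Module.End ℚ A.H1} (E : Type) [Field E] [NumberField E]
      [IsCMField E] (y : E) (c : ℕ), HasCM A P → Defines (minpoly ℚ P) E y → PrimitiveCore E c →
      (∀ Z, IsEndomorphism A Z → IsSkewSymmetric A Z → IsOrthogonalToSubfields A y P c Z →
        ∀ {m : ℕ} (φ : Form A m), IsDRB A φ → Annihilates A Z φ) ∧
      (IsOfWeilType A y P c → ∀ {m : ℕ} (φ : Form A m), IsDRB A φ → IsHodge A φ)) ∧
    -- 3
    (∀ {g : ℕ} (A : AbVar g), MaximalRM A → ∀ {r : ℕ} {Y : Module.End ℚ A.H1} {p : Fin r → ℚ[X]}
      (E : Fin r → Type) [∀ i, Field (E i)] [∀ i, NumberField (E i)] [∀ i, IsCMField (E i)]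
      (y : ∀ i, E i), IsCMPart A Y p → (∀ i, Defines (p i) (E i) (y i)) → Independent p →
      ∀ {m : ℕ}, (∀ i, CoreCondition (E i) m (Function.Injective Y ∧ r = 1)) →
      ∀ φ : Form A m, IsDRB A φ →
        φ ∈ Submodule.span ℚ {ψ | IsProductOfDivisorClasses A ψ} ∧ IsHodge A φ) ∧
    -- 4
    AllFacts := by
  refine ⟨?_, ?_, ?_, allFacts_hold⟩
  · rintro g A P E _ _ _ y hP hy m hC φ hφ
    have hPE := A.mem_EA.2 hP.endomorphism
    have key : ∀ Z : Module.End ℚ A.H1, IsSkewSymmetric A Z → Z * P = P * Z →
        Pool.Agent.H204R3.SP.Kills Z φ :=
      fun Z hZ1 hZ2 => kills_simple A hPE hP.skew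
        (fun Q hQ => hP.generates Q (A.mem_EA.1 hQ)) (fun Q hQ => hP.simple Q (A.mem_EA.1 hQ))
        hP.degree hy hC hφ hZ1 hZ2
    refine ⟨?_, Pool.Agent.W5h86.LX.hodge3 A hPE key⟩
    have hPi : Function.Injective P := by
      rcases Nat.eq_zero_or_pos g with hg0 | hg0
      · subst hg0
        have hsub : Subsingleton A.H1 := ⟨fun a b => funext fun i => absurd i.2 (by omega)⟩
        exact fun a b _ => Subsingleton.elim a b
      · refine hP.simple P hP.endomorphism ?_
        rintro rfl
        have h1 : (minpoly ℚ (0 : Module.End ℚ A.H1)) ∣ X := by
          apply minpoly.dvd
          rw [aeval_X]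
        have h2 := natDegree_le_of_dvd h1 X_ne_zero
        rw [hP.degree, natDegree_X] at h2
        omega
    refine Submodule.span_mono ?_ (Pool.Agent.W5h86.LX.lef_of_kills A hPE hP.skew hPi key)
    rintro ψ ⟨σ, Q, hQ, hψ⟩
    exact ⟨σ, Q, fun l => A.mem_EA.1 (hQ l), hψ⟩
  · rintro g A P E _ _ _ y c hP hy hC
    refine ⟨fun Z hZ hZs hZo m φ hφ => ?_, fun hW m φ hφ => ?_⟩
    · exact kills_orthogonal A (A.mem_EA.2 hP.endomorphism) hP.skew
        (fun Q hQ => hP.generates Q (A.mem_EA.1 hQ)) (fun Q hQ => hP.simple Q (A.mem_EA.1 hQ))
        hP.degree hy hC hZs (A.mem_EA.2 hZ) hZo hφ
    · exact hodge_of_balanced A (A.mem_EA.2 hP.endomorphism) hP.skew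
        (fun Q hQ => hP.generates Q (A.mem_EA.1 hQ)) (fun Q hQ => hP.simple Q (A.mem_EA.1 hQ))
        hP.degree hy hC hW hφ
  · rintro g A ⟨P, hP, hcomm, hsym, hli⟩ r Y p E _ _ _ y hY hy hind m hC φ hφ
    have hZA : ∀ R : Module.End ℚ A.H1, R ∈ A.ZA ↔ IsCentralSkew A R := by
      intro R
      constructor
      · rintro ⟨h1, h2, h3⟩
        exact ⟨A.mem_EA.1 h1, h2, fun Q hQ => h3 Q (A.mem_EA.2 hQ)⟩
      · rintro ⟨h1, h2, h3⟩
        exact ⟨A.mem_EA.2 h1, h2, fun Q hQ => h3 Q (A.mem_EA.1 hQ)⟩
    have h := drb_core A P hP hcomm hsym hli ((hZA Y).2 hY.central)
      (fun R hR => hY.generates R ((hZA R).1 hR)) p E y hy hC hY.factor hY.minpoly_dvd hind φ hφ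
    refine ⟨Submodule.span_mono ?_ h.1, h.2⟩
    rintro ψ ⟨σ, Q, hQ, hψ⟩
    exact ⟨σ, Q, fun l => A.mem_EA.1 (hQ l), hψ⟩

end Pool.Agent.Results.MP_470b79_ag.PrimitiveCores
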